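import Pool.Agent.Helper98.NP.Defs

/-!
# Newton polygon criterion: connectedness lemma (C3) and the non simply laced case (C4)
-/

set_option linter.unusedSectionVars false

namespace Pool.Agent.Helper38.NP

open Pool.Agent.Helper98.NP

variable {ι K M N : Type*} [Finite ι] [Field K] [CharZero K] [AddCommGroup M] [Module K M]
  [AddCommGroup N] [Module K N] {P : RootPairing ι K M N}

section basic

omit [Finite ι] [CharZero K] in
lemma pcast [P.IsCrystallographic] (i j : ι) : ((P.pairingIn ℤ i j : ℤ) : K) = P.pairing i j := by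
  rw [← P.algebraMap_pairingIn ℤ]; simp

omit [Finite ι] [CharZero K] in
lemma root_ng (i : ι) : P.root (P.reflectionPerm i i) = - P.root i := by simp

omit [Finite ι] [CharZero K] in
lemma coroot_ng (i : ι) : P.coroot (P.reflectionPerm i i) = - P.coroot i := by simp

omit [Finite ι] in
lemma pIn_ng_left [P.IsCrystallographic] (i j : ι) :
    P.pairingIn ℤ (P.reflectionPerm i i) j = - P.pairingIn ℤ i j := by
  have : ((P.pairingIn ℤ (P.reflectionPerm i i) j : ℤ) : K) = ((- P.pairingIn ℤ i j : ℤ) : K) := by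
    push_cast
    rw [pcast, pcast, ← P.root_coroot_eq_pairing, ← P.root_coroot_eq_pairing, root_ng]
    simp
  exact_mod_cast this

omit [Finite ι] in
lemma pIn_ng_right [P.IsCrystallographic] (i j : ι) :
    P.pairingIn ℤ j (P.reflectionPerm i i) = - P.pairingIn ℤ j i := by
  have : ((P.pairingIn ℤ j (P.reflectionPerm i i) : ℤ) : K) = ((- P.pairingIn ℤ j i : ℤ) : K) := by
    push_cast
    rw [pcast, pcast, ← P.root_coroot_eq_pairing, ← P.root_coroot_eq_pairing, coroot_ng]
    simp
  exact_mod_cast this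

omit [Finite ι] in
/-- integer linear relations between roots give the same relations between pairings -/
lemma pIn_left [P.IsCrystallographic] {k i j : ι} {p q : ℤ}
    (h : P.root k = (p : K) • P.root i + (q : K) • P.root j) (t : ι) :
    P.pairingIn ℤ k t = p * P.pairingIn ℤ i t + q * P.pairingIn ℤ j t := by
  have : ((P.pairingIn ℤ k t : ℤ) : K) =
      ((p * P.pairingIn ℤ i t + q * P.pairingIn ℤ j t : ℤ) : K) := by
    push_cast
    rw [pcast, pcast, pcast, ← P.root_coroot_eq_pairing, h]
    simp
  exact_mod_cast this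

omit [Finite ι] in
lemma pIn_right [P.IsCrystallographic] {k i j : ι} {p q : ℤ}
    (h : P.coroot k = (p : K) • P.coroot i + (q : K) • P.coroot j) (t : ι) :
    P.pairingIn ℤ t k = p * P.pairingIn ℤ t i + q * P.pairingIn ℤ t j := by
  have : ((P.pairingIn ℤ t k : ℤ) : K) =
      ((p * P.pairingIn ℤ t i + q * P.pairingIn ℤ t j : ℤ) : K) := by
    push_cast
    rw [pcast, pcast, pcast, ← P.root_coroot_eq_pairing, h]
    simp
  exact_mod_cast this

omit [Finite ι] in
lemma root_refl [P.IsCrystallographic] (i j : ι) :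
    P.root (P.reflectionPerm i j) =
      ((1 : ℤ) : K) • P.root j + ((- P.pairingIn ℤ j i : ℤ) : K) • P.root i := by
  rw [P.root_reflectionPerm, P.reflection_apply_root]
  push_cast
  rw [pcast]
  module

omit [Finite ι] in
lemma coroot_refl [P.IsCrystallographic] (i j : ι) :
    P.coroot (P.reflectionPerm i j) =
      ((1 : ℤ) : K) • P.coroot j + ((- P.pairingIn ℤ i j : ℤ) : K) • P.coroot i := by
  rw [P.coroot_reflectionPerm, P.coreflection_apply_coroot]
  push_cast
  rw [pcast]
  module

omit [Finite ι] in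
lemma pIn_zero_iff [P.IsCrystallographic] (i j : ι) :
    P.pairingIn ℤ i j = 0 ↔ P.pairingIn ℤ j i = 0 := by
  have h := P.pairing_eq_zero_iff' (i := i) (j := j)
  rw [← pcast, ← pcast] at h
  exact_mod_cast h

omit [Finite ι] in
lemma pIn_same [P.IsCrystallographic] (i : ι) : P.pairingIn ℤ i i = 2 := by
  have h := P.pairing_same i
  rw [← pcast] at h
  exact_mod_cast h

lemma pIn_pos_iff [P.IsCrystallographic] (i j : ι) :
    0 < P.pairingIn ℤ i j ↔ 0 < P.pairingIn ℤ j i := by
  have h := P.pairingIn_pairingIn_mem_set_of_isCrystallographic i j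
  simp only [Set.mem_insert_iff, Set.mem_singleton_iff, Prod.mk.injEq] at h
  omega

lemma pIn_prod [P.IsCrystallographic] (i j : ι) :
    P.pairingIn ℤ i j * P.pairingIn ℤ j i ≤ 4 := by
  have h := P.pairingIn_pairingIn_mem_set_of_isCrystallographic i j
  simp only [Set.mem_insert_iff, Set.mem_singleton_iff, Prod.mk.injEq] at h
  rcases h with h | h | h | h | h | h | h | h | h | h | h | h | h | h | h | h | h <;>
    (rw [h.1, h.2]; norm_num)

lemma eq_of_two_two [P.IsCrystallographic] {i j : ι}
    (h : P.pairingIn ℤ i j = 2) (h' : P.pairingIn ℤ j i = 2) : i = j := by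
  have : Module.IsReflexive K M := .of_isPerfPair P.toLinearMap
  have : Module.IsReflexive K N := .of_isPerfPair P.flip.toLinearMap
  exact (P.pairingIn_two_two_iff ℤ i j).1 ⟨h, h'⟩

end basic

/-- integer values of the roots at `x`, all in `{-1, 0, 1}` -/
structure XV (P : RootPairing ι K M N) (x : N) (v : ι → ℤ) : Prop where
  val : ∀ i, P.toLinearMap (P.root i) x = (v i : K)
  lo : ∀ i, -1 ≤ v i
  hi : ∀ i, v i ≤ 1

section xv

variable {x : N} {v : ι → ℤ}

omit [Finite ι] in
lemma exists_xv (hx : ∀ i, P.toLinearMap (P.root i) x = -1 ∨ P.toLinearMap (P.root i) x = 0 ∨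
      P.toLinearMap (P.root i) x = 1) : ∃ v : ι → ℤ, XV P x v := by
  have : ∀ i, ∃ m : ℤ, P.toLinearMap (P.root i) x = (m : K) ∧ -1 ≤ m ∧ m ≤ 1 := by
    intro i
    rcases hx i with h | h | h
    · exact ⟨-1, by simp [h], by norm_num, by norm_num⟩
    · exact ⟨0, by simp [h], by norm_num, by norm_num⟩
    · exact ⟨1, by simp [h], by norm_num, by norm_num⟩
  choose v hv using this
  exact ⟨v, fun i => (hv i).1, fun i => (hv i).2.1, fun i => (hv i).2.2⟩

omit [Finite ι] in
lemma XV.lin (hv : XV P x v) {k i j : ι} {p q : ℤ}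
    (h : P.root k = (p : K) • P.root i + (q : K) • P.root j) : v k = p * v i + q * v j := by
  have : ((v k : ℤ) : K) = ((p * v i + q * v j : ℤ) : K) := by
    rw [← hv.val, h]
    push_cast
    rw [← hv.val, ← hv.val]
    simp
  exact_mod_cast this

omit [Finite ι] in
lemma XV.ng (hv : XV P x v) (i : ι) : v (P.reflectionPerm i i) = - v i := by
  have := hv.lin (k := P.reflectionPerm i i) (i := i) (j := i) (p := -1) (q := 0)
    (by rw [root_ng]; push_cast; module)
  rw [this]; ring

omit [Finite ι] in
lemma XV.refl [P.IsCrystallographic] (hv : XV P x v) (i j : ι) :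
    v (P.reflectionPerm i j) = v j - P.pairingIn ℤ j i * v i := by
  rw [hv.lin (root_refl i j)]; ring

/-- difference of two roots with positive pairing -/
lemma exists_sub [P.IsCrystallographic] {i j : ι} (h : 0 < P.pairingIn ℤ i j) (hij : i ≠ j) :
    ∃ k, P.root k = ((1 : ℤ) : K) • P.root i + ((-1 : ℤ) : K) • P.root j := by
  obtain ⟨k, hk⟩ := P.root_sub_root_mem_of_pairingIn_pos h hij
  exact ⟨k, by rw [hk]; push_cast; module⟩

lemma exists_add [P.IsCrystallographic] {i j : ι} (h : P.pairingIn ℤ i j < 0)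
    (hij : P.root i ≠ - P.root j) :
    ∃ k, P.root k = ((1 : ℤ) : K) • P.root i + ((1 : ℤ) : K) • P.root j := by
  obtain ⟨k, hk⟩ := P.root_add_root_mem_of_pairingIn_neg h hij
  exact ⟨k, by rw [hk]; push_cast; module⟩

lemma XV.nonneg [P.IsCrystallographic] (hv : XV P x v) {i j : ι} (hi : v i = 1) (hj : v j = 1) :
    0 ≤ P.pairingIn ℤ i j := by
  by_contra hneg
  push Not at hneg
  have hne : P.root i ≠ - P.root j := by
    intro h
    have := hv.lin (k := i) (i := j) (j := j) (p := -1) (q := 0) (by rw [h]; push_cast; module)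
    omega
  obtain ⟨k, hk⟩ := exists_add hneg hne
  have h1 := hv.lin hk
  have h2 := hv.hi k
  rw [hi, hj] at h1
  omega

end xv

section tr

variable {Λ : Finset M} {d : M → ℕ} {ρ : ι → ℕ}

omit [Finite ι] in
lemma rho_sym [P.IsCrystallographic] (T : Tr P Λ d ρ) (i j : ι) :
    (ρ i : ℤ) * P.pairingIn ℤ i j = ρ j * P.pairingIn ℤ j i := by
  have h1 := T.tr i (P.coroot j)
  have h2 := T.tr j (P.coroot i)
  have h3 : ((ρ i : ℤ) * P.pairingIn ℤ i j : K) = ((ρ j : ℤ) * P.pairingIn ℤ j i : K) := by
    rw [P.root_coroot_eq_pairing, ← pcast] at h1 h2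
    push_cast at h1 h2 ⊢
    rw [← h1, ← h2]
    refine Finset.sum_congr rfl fun l _ => ?_
    ring
  exact_mod_cast h3

omit [Finite ι] in
/-- integer values of the weights -/
lemma exists_wv (W : Wts P Λ) :
    ∃ c : M → ι → ℤ, ∀ l ∈ Λ, ∀ i, P.toLinearMap l (P.coroot i) = (c l i : K) ∧
      -1 ≤ c l i ∧ c l i ≤ 1 := by
  classical
  have : ∀ l : M, ∀ i : ι, ∃ m : ℤ, l ∈ Λ → P.toLinearMap l (P.coroot i) = (m : K) ∧
      -1 ≤ m ∧ m ≤ 1 := by
    intro l i
    by_cases hl : l ∈ Λ
    · rcases W.mini l hl i with h | h | h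
      · exact ⟨-1, fun _ => ⟨by simp [h], by norm_num, by norm_num⟩⟩
      · exact ⟨0, fun _ => ⟨by simp [h], by norm_num, by norm_num⟩⟩
      · exact ⟨1, fun _ => ⟨by simp [h], by norm_num, by norm_num⟩⟩
    · exact ⟨0, fun h => absurd h hl⟩
  choose c hc using this
  exact ⟨c, fun l hl i => hc l i hl⟩

omit [Finite ι] in
lemma rho_pos (W : Wts P Λ) (T : Tr P Λ d ρ) (i : ι) : 0 < ρ i := by
  obtain ⟨c, hc⟩ := exists_wv W
  have h := T.tr i (P.coroot i)
  have h1 : ((∑ l ∈ Λ, (d l : ℤ) * (c l i * c l i) : ℤ) : K) = ((ρ i * 2 : ℤ) : K) := by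
    push_cast
    rw [P.root_coroot_eq_pairing, P.pairing_same] at h
    rw [← h]
    refine Finset.sum_congr rfl fun l hl => ?_
    rw [(hc l hl i).1]
  have h2 : (∑ l ∈ Λ, (d l : ℤ) * (c l i * c l i) : ℤ) = ρ i * 2 := by exact_mod_cast h1
  obtain ⟨l, hl, hli⟩ := W.ne i
  have h3 : 0 < ∑ l ∈ Λ, (d l : ℤ) * (c l i * c l i) := by
    apply Finset.sum_pos'
    · intro l _
      exact mul_nonneg (by positivity) (mul_self_nonneg _)
    · refine ⟨l, hl, mul_pos (by exact_mod_cast T.pos l hl) ?_⟩
      rw [(hc l hl i).1] at hli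
      have : c l i ≠ 0 := by exact_mod_cast hli
      exact mul_self_pos.2 this
  omega

/-- connectedness lemma (C3) -/
theorem conn [P.IsCrystallographic] [P.IsReduced] [P.IsIrreducible] (W : Wts P Λ)
    (T : Tr P Λ d ρ) {x : N}
    (hx : ∀ i, P.toLinearMap (P.root i) x = -1 ∨ P.toLinearMap (P.root i) x = 0 ∨
      P.toLinearMap (P.root i) x = 1)
    {b : ι} (hb : P.toLinearMap (P.root b) x = 1) (hlong : ∀ j, ρ b ≤ ρ j)
    {c : ι} (hc : P.toLinearMap (P.root c) x = 1) :
    ∃ g, P.toLinearMap (P.root g) x = 1 ∧ P.pairing b g ≠ 0 ∧ P.pairing c g ≠ 0 := by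
  obtain ⟨v, hv⟩ := exists_xv hx
  have hb1 : v b = 1 := by have := hv.val b; rw [hb] at this; exact_mod_cast this.symm
  have hc1 : v c = 1 := by have := hv.val c; rw [hc] at this; exact_mod_cast this.symm
  set a : ι → ι → ℤ := P.pairingIn ℤ with ha
  let A : Set ι := {c | v c = 1 ∧ ∃ g, v g = 1 ∧ a b g ≠ 0 ∧ a c g ≠ 0}
  have hbA : b ∈ A := ⟨hb1, b, hb1, by rw [ha, pIn_same]; norm_num, by rw [ha, pIn_same]; norm_num⟩
  suffices hcA : c ∈ A by
    obtain ⟨-, g, hg1, hg2, hg3⟩ := hcA
    refine ⟨g, by rw [hv.val g, hg1]; simp, ?_, ?_⟩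
    · rw [← pcast]; exact_mod_cast hg2
    · rw [← pcast]; exact_mod_cast hg3
  -- neighbour closedness
  have hN : ∀ c ∈ A, ∀ k, v k = 1 → a k c ≠ 0 → k ∈ A := by
    rintro c ⟨hc1, g, hg1, hbg, hcg⟩ k hk hkc
    refine ⟨hk, ?_⟩
    by_cases h1 : a k g = 0
    swap
    · exact ⟨g, hg1, hbg, h1⟩
    by_cases h2 : a b k = 0
    swap
    · exact ⟨k, hk, h2, by rw [ha, pIn_same]; norm_num⟩
    by_cases h3 : a b c = 0
    swap
    · exact ⟨c, hc1, h3, hkc⟩
    have hbg' : 0 < a b g := lt_of_le_of_ne (hv.nonneg hb1 hg1) (Ne.symm hbg)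
    have hgb' : 0 < a g b := (pIn_pos_iff b g).1 hbg'
    have hcg' : 0 < a c g := lt_of_le_of_ne (hv.nonneg hc1 hg1) (Ne.symm hcg)
    have hgc' : 0 < a g c := (pIn_pos_iff c g).1 hcg'
    have hbneg : b ≠ g := by
      rintro rfl
      exact hgc'.ne' h3
    obtain ⟨δ, hδ⟩ := exists_sub hbg' hbneg
    have hδv := hv.lin hδ
    have hδc := pIn_left hδ c
    have hδc' : P.pairingIn ℤ δ c < 0 := by
      have : a b c = 0 := h3
      simp only [ha] at *
      rw [hδc]; omega
    have hne : P.root δ ≠ - P.root c := by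
      intro h
      have := hv.lin (k := δ) (i := c) (j := c) (p := -1) (q := 0) (by rw [h]; push_cast; module)
      omega
    obtain ⟨g', hg'⟩ := exists_add hδc' hne
    have hg'v := hv.lin hg'
    have hg'b := pIn_left hg' b
    have hg'k := pIn_left hg' k
    have hδb := pIn_left hδ b
    have hδk := pIn_left hδ k
    have hgb1 : a g b = 1 := by
      by_contra hgb1
      have h5 : 2 ≤ a g b := by omega
      have h6 := rho_sym T g b
      have h7 := hlong g
      have h8 := rho_pos W T b
      have h9 : a g b ≤ a b g := by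
        simp only [ha] at *
        by_contra hlt
        push Not at hlt
        have : (ρ b : ℤ) * P.pairingIn ℤ b g < ρ g * P.pairingIn ℤ g b := by
          calc (ρ b : ℤ) * P.pairingIn ℤ b g < ρ b * P.pairingIn ℤ g b := by
                apply mul_lt_mul_of_pos_left hlt; exact_mod_cast h8
            _ ≤ ρ g * P.pairingIn ℤ g b := by
                apply mul_le_mul_of_nonneg_right _ (by omega); exact_mod_cast h7
        omega
      have h10 := pIn_prod (P := P) g b
      simp only [ha] at *
      have h11 : P.pairingIn ℤ g b = 2 := by nlinarith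
      have h12 : P.pairingIn ℤ b g = 2 := by nlinarith
      exact hbneg (eq_of_two_two h12 h11)
    have hbb : P.pairingIn ℤ b b = 2 := pIn_same b
    have hcb : P.pairingIn ℤ c b = 0 := (pIn_zero_iff b c).1 h3
    have hgk : P.pairingIn ℤ g k = 0 := (pIn_zero_iff k g).1 h1
    have hck : P.pairingIn ℤ c k ≠ 0 := fun h => hkc ((pIn_zero_iff c k).1 h)
    refine ⟨g', by rw [hg'v, hδv, hb1, hg1, hc1]; norm_num, ?_, ?_⟩
    · intro h
      have := (pIn_zero_iff b g').1 h
      simp only [ha] at *
      omega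
    · intro h
      have := (pIn_zero_iff k g').1 h
      simp only [ha] at *
      omega
  -- the span of `A`
  have hspan : Submodule.span K (P.root '' A) = ⊤ := by
    apply P.span_root_image_eq_top_of_forall_orthogonal A ⟨b, hbA⟩
    intro j hj i hi
    have : Module.IsReflexive K M := .of_isPerfPair P.toLinearMap
    rw [P.isOrthogonal_iff_pairing_eq_zero, ← pcast]
    by_contra hji
    have hji : a j i ≠ 0 := by
      intro h
      exact hji (by simp only [ha] at h; rw [h]; simp)
    -- wlog `a j i > 0`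
    have key : ∀ j, 0 < a j i → 0 ≤ v j → P.root j ∈ Submodule.span K (P.root '' A) := by
      intro j hj hj0
      rcases (show v j = 0 ∨ v j = 1 by have := hv.hi j; omega) with h0 | h1
      · have hij : 0 < a i j := (pIn_pos_iff j i).1 hj
        have hne : i ≠ j := by
          rintro rfl
          have := hi.1
          omega
        obtain ⟨g, hg⟩ := exists_sub hij hne
        have hgv := hv.lin hg
        have hgi := pIn_left hg i
        rw [pIn_same] at hgi
        have hs := hv.refl i j
        have hs' := hv.lo (P.reflectionPerm i j)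
        have hi1 := hi.1
        have hai : a j i = 1 := by
          simp only [ha] at *
          rw [hi1, h0] at hs
          omega
        have hgA : g ∈ A := by
          apply hN i hi g
          · rw [hgv, hi1, h0]; norm_num
          · simp only [ha] at *
            rw [hgi, hai]; norm_num
        have : P.root j = P.root i - P.root g := by
          rw [hg]; push_cast; module
        rw [this]
        exact Submodule.sub_mem _ (Submodule.subset_span ⟨i, hi, rfl⟩)
          (Submodule.subset_span ⟨g, hgA, rfl⟩)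
      · exact Submodule.subset_span ⟨j, hN i hi j h1 hj.ne', rfl⟩
    have hngj : P.root j ∈ Submodule.span K (P.root '' A) ↔
        P.root (P.reflectionPerm j j) ∈ Submodule.span K (P.root '' A) := by
      rw [root_ng, Submodule.neg_mem_iff]
    rcases lt_or_gt_of_ne hji with hlt | hgt
    · have h5 : 0 < a (P.reflectionPerm j j) i := by
        simp only [ha] at *
        rw [pIn_ng_left]; omega
      have h6 : 0 ≤ v (P.reflectionPerm j j) := by
        rw [hv.ng]
        by_contra hcon
        have h7 : v j = 1 := by have := hv.hi j; omega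
        have := hv.nonneg h7 hi.1
        simp only [ha] at *
        omega
      exact hj (hngj.2 (key _ h5 h6))
    · have h6 : 0 ≤ v j := by
        by_contra hcon
        have h7 : v (P.reflectionPerm j j) = 1 := by
          rw [hv.ng]
          have := hv.lo j; omega
        have := hv.nonneg h7 hi.1
        rw [pIn_ng_left] at this
        simp only [ha] at *
        omega
      exact hj (key _ hgt h6)
  by_contra hcA
  have h0 : ∀ i ∈ A, a c i = 0 := by
    intro i hi
    by_contra h
    exact hcA (hN i hi c hc1 h)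
  have h1 : Submodule.span K (P.root '' A) ≤ LinearMap.ker (P.coroot' c) := by
    rw [Submodule.span_le]
    rintro _ ⟨i, hi, rfl⟩
    simp only [SetLike.mem_coe, LinearMap.mem_ker]
    rw [P.root_coroot'_eq_pairing, ← pcast, (pIn_zero_iff c i).1 (h0 i hi)]
    simp
  rw [hspan] at h1
  have h2 : P.root c ∈ LinearMap.ker (P.coroot' c) := h1 Submodule.mem_top
  rw [LinearMap.mem_ker, P.root_coroot'_eq_pairing, P.pairing_same] at h2
  norm_num at h2

end tr

end Pool.Agent.Helper38.NP
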