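import Pool.Agent.Helper38.NP.Conn

/-!
# Newton polygon criterion: the non simply laced case (C4)
-/

set_option linter.unusedSectionVars false

namespace Pool.Agent.Helper38.NP

open Pool.Agent.Helper98.NP

variable {ι K M N : Type*} [Finite ι] [Field K] [CharZero K] [AddCommGroup M] [Module K M]
  [AddCommGroup N] [Module K N] {P : RootPairing ι K M N}
  {Λ : Finset M} {d : M → ℕ} {ρ : ι → ℕ}

lemma rho_refl [P.IsCrystallographic] (T : Tr P Λ d ρ) (i j : ι) :
    ρ (P.reflectionPerm i j) = ρ j := by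
  by_cases h : P.pairingIn ℤ j i = 0
  · have : P.reflectionPerm i j = j :=
      P.reflectionPerm_eq_of_pairing_eq_zero (by rw [← pcast, h]; simp)
    rw [this]
  · have h1 := rho_sym T (P.reflectionPerm i j) i
    have h2 := rho_sym T j i
    have h3 := pIn_left (root_refl (P := P) i j) i
    have h4 := pIn_right (coroot_refl (P := P) i j) i
    rw [pIn_same] at h3 h4
    have h5 : ((ρ (P.reflectionPerm i j) : ℤ)) * P.pairingIn ℤ j i = ρ j * P.pairingIn ℤ j i := by
      rw [h2]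
      have : P.pairingIn ℤ (P.reflectionPerm i j) i = - P.pairingIn ℤ j i := by rw [h3]; ring
      rw [this] at h1
      have : P.pairingIn ℤ i (P.reflectionPerm i j) = - P.pairingIn ℤ i j := by rw [h4]; ring
      rw [this] at h1
      linarith
    have h6 := mul_right_cancel₀ h h5
    exact_mod_cast h6

/-- a set of roots closed under reflections meets every root -/
lemma exists_pos [P.IsCrystallographic] [P.IsIrreducible] {S : Set ι} (hne : S.Nonempty)
    (hS : ∀ j ∈ S, ∀ i, P.reflectionPerm i j ∈ S) (c : ι) :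
    ∃ g ∈ S, 0 < P.pairingIn ℤ g c ∧ 0 < P.pairingIn ℤ c g := by
  have hspan : Submodule.span K (P.root '' S) = ⊤ := by
    apply RootPairing.IsIrreducible.eq_top_of_invtSubmodule_reflection (P := P)
    · intro i
      rw [Module.End.mem_invtSubmodule, Submodule.span_le]
      rintro _ ⟨j, hj, rfl⟩
      simp only [Submodule.comap_coe, Set.mem_preimage, SetLike.mem_coe, LinearEquiv.coe_coe]
      rw [← P.root_reflectionPerm]
      exact Submodule.subset_span ⟨_, hS j hj i, rfl⟩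
    · obtain ⟨j, hj⟩ := hne
      intro h
      have := Submodule.subset_span (R := K) (Set.mem_image_of_mem P.root hj)
      rw [h] at this
      exact P.ne_zero j (by simpa using this)
  by_contra hcon
  push Not at hcon
  have h0 : ∀ g ∈ S, P.pairingIn ℤ g c = 0 := by
    intro g hg
    by_contra h
    rcases lt_or_gt_of_ne h with hlt | hgt
    · have h1 : 0 < P.pairingIn ℤ (P.reflectionPerm g g) c := by rw [pIn_ng_left]; omega
      have h2 := hcon _ (hS g hg g) h1
      have h3 := (pIn_pos_iff _ _).1 h1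
      omega
    · have h2 := hcon _ hg hgt
      have h3 := (pIn_pos_iff _ _).1 hgt
      omega
  have h1 : Submodule.span K (P.root '' S) ≤ LinearMap.ker (P.coroot' c) := by
    rw [Submodule.span_le]
    rintro _ ⟨i, hi, rfl⟩
    simp only [SetLike.mem_coe, LinearMap.mem_ker]
    rw [P.root_coroot'_eq_pairing, ← pcast, h0 i hi]
    simp
  rw [hspan] at h1
  have h2 : P.root c ∈ LinearMap.ker (P.coroot' c) := h1 Submodule.mem_top
  rw [LinearMap.mem_ker, P.root_coroot'_eq_pairing, P.pairing_same] at h2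
  norm_num at h2

/-- reflecting a weight -/
lemma refl_weight (W : Wts P Λ) {l : M} (hl : l ∈ Λ) {i : ι}
    (h : P.toLinearMap l (P.coroot i) = 1) : l - P.root i ∈ Λ := by
  have h1 := W.refl l hl i
  rw [P.reflection_apply] at h1
  have : P.coroot' i l = 1 := h
  rw [this, one_smul] at h1
  exact h1

lemma pIn_abs [P.IsCrystallographic] (W : Wts P Λ) (i j : ι) :
    -2 ≤ P.pairingIn ℤ i j ∧ P.pairingIn ℤ i j ≤ 2 := by
  obtain ⟨c, hc⟩ := exists_wv W
  obtain ⟨l, hl, hli⟩ := W.ne i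
  -- a weight with value 1
  obtain ⟨l, hl, hli⟩ : ∃ l ∈ Λ, P.toLinearMap l (P.coroot i) = 1 := by
    rcases W.mini l hl i with h | h | h
    · exact ⟨-l, W.neg l hl, by simp [h]⟩
    · exact absurd h hli
    · exact ⟨l, hl, h⟩
  have hl' := refl_weight W hl hli
  obtain ⟨h1, h2, h3⟩ := hc l hl j
  obtain ⟨h4, h5, h6⟩ := hc _ hl' j
  have h7 : ((P.pairingIn ℤ i j : ℤ) : K) = ((c l j - c (l - P.root i) j : ℤ) : K) := by
    push_cast
    rw [← h1, ← h4, pcast, ← P.root_coroot_eq_pairing, map_sub, LinearMap.sub_apply]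
    ring
  have h8 : P.pairingIn ℤ i j = c l j - c (l - P.root i) j := by exact_mod_cast h7
  omega

lemma long_short [P.IsCrystallographic] (W : Wts P Λ) (T : Tr P Λ d ρ) {b s : ι}
    (hb : ∀ k, ρ b ≤ ρ k) (hs : ¬ ∀ k, ρ s ≤ ρ k) (h : 0 < P.pairingIn ℤ s b) :
    P.pairingIn ℤ b s = 2 ∧ P.pairingIn ℤ s b = 1 := by
  push Not at hs
  obtain ⟨k, hk⟩ := hs
  have h1 : (ρ b : ℤ) < ρ s := by exact_mod_cast lt_of_le_of_lt (hb k) hk
  have h2 := rho_sym T s b
  have h3 := pIn_abs W b s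
  have h4 := (pIn_pos_iff s b).1 h
  have h5 : (0 : ℤ) < ρ b := by exact_mod_cast rho_pos W T b
  have h6 : P.pairingIn ℤ s b < P.pairingIn ℤ b s := by
    by_contra hcon
    push Not at hcon
    have : (ρ b : ℤ) * P.pairingIn ℤ b s < ρ s * P.pairingIn ℤ s b := by nlinarith
    omega
  omega

section long

variable [P.IsCrystallographic] {x : N} {v : ι → ℤ}

/-- (L) -/
lemma long_pair [P.IsIrreducible] (W : Wts P Λ) (T : Tr P Λ d ρ) (hv : XV P x v)
    (hshort : ∃ s, ¬ ∀ k, ρ s ≤ ρ k) {b : ι} (hb : ∀ k, ρ b ≤ ρ k) (hb1 : v b = 1) :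
    ∃ b' a', v b' = 1 ∧ v a' = 1 ∧ (∀ k, ρ b' ≤ ρ k) ∧ P.pairingIn ℤ b' b = 0 ∧
      P.root b' = ((2 : ℤ) : K) • P.root a' + ((-1 : ℤ) : K) • P.root b ∧
      P.coroot a' = ((1 : ℤ) : K) • P.coroot b + ((1 : ℤ) : K) • P.coroot b' := by
  obtain ⟨s, hs, hsb, hbs⟩ := exists_pos (P := P) (S := {s | ¬ ∀ k, ρ s ≤ ρ k}) hshort
    (by
      intro j hj i
      simp only [Set.mem_ofPred_eq] at hj ⊢
      rw [rho_refl T i j]
      exact hj) b
  obtain ⟨hbs2, hsb1⟩ := long_short W T hb hs hsb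
  have hr := root_refl (P := P) s b
  have hcr := coroot_refl (P := P) s b
  rw [hbs2] at hr
  rw [hsb1] at hcr
  have hvr := hv.lin hr
  have hvlo := hv.lo (P.reflectionPerm s b)
  have hvhi := hv.hi (P.reflectionPerm s b)
  have hρ := rho_refl T s b
  have hrb := pIn_left hr b
  rw [pIn_same, hsb1] at hrb
  rcases (show v s = 0 ∨ v s = 1 by omega) with h0 | h1
  · -- `a' = - s_b s`
    have hr' := root_refl (P := P) b s
    have hcr' := coroot_refl (P := P) b s
    rw [hsb1] at hr'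
    rw [hbs2] at hcr'
    refine ⟨P.reflectionPerm s b,
      P.reflectionPerm (P.reflectionPerm b s) (P.reflectionPerm b s), ?_, ?_, ?_, ?_, ?_, ?_⟩
    · omega
    · rw [hv.ng, hv.lin hr']; omega
    · rw [hρ]; exact hb
    · omega
    · rw [root_ng, hr, hr']; push_cast; module
    · rw [coroot_ng, hcr, hcr']; push_cast; module
  · refine ⟨P.reflectionPerm (P.reflectionPerm s b) (P.reflectionPerm s b), s, ?_, h1, ?_, ?_, ?_,
      ?_⟩
    · rw [hv.ng]; omega
    · rw [rho_refl T, hρ]; exact hb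
    · rw [pIn_ng_left]; omega
    · rw [root_ng, hr]; push_cast; module
    · rw [coroot_ng, hcr]; push_cast; module

end long

/-- (C4) the non simply laced case, relative to the chain lemma (C1) -/
theorem not_two_lengths_of [P.IsCrystallographic] [P.IsReduced] [P.IsIrreducible] (W : Wts P Λ)
    (T : Tr P Λ d ρ)
    (hchain : ∀ l ∈ Λ, ∀ l' ∈ Λ, ∃ (r : ℕ) (γ : Fin r → ι), Chain P l l' γ) {x : N}
    (hx : ∀ i, P.toLinearMap (P.root i) x = -1 ∨ P.toLinearMap (P.root i) x = 0 ∨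
      P.toLinearMap (P.root i) x = 1)
    {l : M} (hl : l ∈ Λ) {n : ℤ} (hn : 1 ≤ n) (hlx : P.toLinearMap l x = n) (i j : ι) :
    P.pairing i j = P.pairing j i := by
  by_contra hij
  obtain ⟨v, hv⟩ := exists_xv hx
  obtain ⟨c, hc⟩ := exists_wv W
  -- there are two lengths
  have hρne : ρ i ≠ ρ j := by
    intro h
    apply hij
    have h1 := rho_sym T i j
    rw [h] at h1
    have h2 : P.pairingIn ℤ i j = P.pairingIn ℤ j i :=
      mul_left_cancel₀ (by exact_mod_cast (rho_pos W T j).ne') h1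
    rw [← pcast, ← pcast, h2]
  have hne : Nonempty ι := ⟨i⟩
  obtain ⟨m, hm⟩ := Finite.exists_min ρ
  have hshort : ∃ s, ¬ ∀ k, ρ s ≤ ρ k := by
    by_contra hcon
    push Not at hcon
    exact hρne (le_antisymm (hcon i j) (hcon j i))
  have hlongpos : ∀ c : ι, ∃ g, (∀ k, ρ g ≤ ρ k) ∧ 0 < P.pairingIn ℤ g c ∧
      0 < P.pairingIn ℤ c g := by
    intro c
    obtain ⟨g, hg, hg'⟩ := exists_pos (P := P) (S := {s | ∀ k, ρ s ≤ ρ k}) ⟨m, hm⟩
      (by
        intro j hj i
        simp only [Set.mem_ofPred_eq] at hj ⊢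
        rw [rho_refl T i j]
        exact hj) c
    exact ⟨g, hg, hg'⟩
  -- (iv) a long root `b₁` with value 1 and `l (b₁^∨) = 1`
  have hval : ∀ {l₁ l₂ : M} {r : ℕ} {γ : Fin r → ι}, Chain P l₁ l₂ γ → ∀ {k : ℤ}, 1 ≤ k →
      P.toLinearMap (l₁ - l₂) x = (k : K) → ∃ j, v (γ j) = 1 := by
    intro l₁ l₂ r γ hγ k hk hkx
    rw [hγ.sum, map_sum, LinearMap.sum_apply] at hkx
    have h1 : ((∑ j, v (γ j) : ℤ) : K) = (k : K) := by
      rw [← hkx]; push_cast
      exact Finset.sum_congr rfl fun j _ => (hv.val _).symm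
    have h2 : ∑ j, v (γ j) = k := by exact_mod_cast h1
    obtain ⟨j, -, hj⟩ := Finset.exists_lt_of_sum_lt (s := Finset.univ) (f := fun _ : Fin r => (0:ℤ))
      (g := fun j => v (γ j)) (by simp only [Finset.sum_const_zero]; omega)
    exact ⟨j, by have := hv.hi (γ j); omega⟩
  obtain ⟨b₁, hb₁long, hb₁v, hb₁l⟩ : ∃ b₁, (∀ k, ρ b₁ ≤ ρ k) ∧ v b₁ = 1 ∧
      P.toLinearMap l (P.coroot b₁) = 1 := by
    obtain ⟨r, β, hβ⟩ := hchain l hl (-l) (W.neg l hl)
    obtain ⟨j, hj⟩ := hval hβ (k := 2 * n) (by omega) (by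
      rw [sub_neg_eq_add, map_add, LinearMap.add_apply, hlx]; push_cast; ring)
    have hlj := hβ.top j
    by_cases hlong : ∀ k, ρ (β j) ≤ ρ k
    · exact ⟨β j, hlong, hj, hlj⟩
    · obtain ⟨b, hb, hb1, hb2⟩ := hlongpos (β j)
      obtain ⟨h3, h4⟩ := long_short W T hb hlong hb2
      have hr := root_refl (P := P) (β j) b
      have hcr := coroot_refl (P := P) (β j) b
      rw [h3] at hr
      rw [h4] at hcr
      have hvr := hv.lin hr
      have hvlo := hv.lo (P.reflectionPerm (β j) b)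
      have hvb := hv.hi b
      have hρ := rho_refl T (β j) b
      obtain ⟨hcb, hcb1, hcb2⟩ := hc l hl b
      obtain ⟨hcs, hcs1, hcs2⟩ := hc l hl
        (P.reflectionPerm (P.reflectionPerm (β j) b) (P.reflectionPerm (β j) b))
      have hsum : c l b + c l (P.reflectionPerm (P.reflectionPerm (β j) b)
          (P.reflectionPerm (β j) b)) = 1 := by
        have : ((c l b + c l (P.reflectionPerm (P.reflectionPerm (β j) b)
            (P.reflectionPerm (β j) b)) : ℤ) : K) = ((1 : ℤ) : K) := by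
          push_cast
          rw [← hcb, ← hcs, ← map_add, coroot_ng, hcr]
          have : P.coroot b + -((1 : ℤ) • P.coroot b + (-(1 : ℤ)) • P.coroot (β j)) =
            P.coroot (β j) := by module
          rw [← hlj]
          congr 1
          push_cast
          module
        exact_mod_cast this
      rcases (show c l b = 1 ∨ c l (P.reflectionPerm (P.reflectionPerm (β j) b)
          (P.reflectionPerm (β j) b)) = 1 by omega) with h5 | h5
      · exact ⟨b, hb, by omega, by rw [hcb, h5]; simp⟩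
      · refine ⟨P.reflectionPerm (P.reflectionPerm (β j) b) (P.reflectionPerm (β j) b),
          ?_, ?_, ?_⟩
        · rw [rho_refl T, hρ]; exact hb
        · rw [hv.ng]; omega
        · rw [hcs, h5]; simp
  -- (v)
  have hl₁ := refl_weight W hl hb₁l
  obtain ⟨b₂, hb₂v, hb₂l, hb₁₂⟩ : ∃ b₂, v b₂ = 1 ∧ P.toLinearMap l (P.coroot b₂) = 1 ∧
      P.pairingIn ℤ b₁ b₂ = 0 := by
    obtain ⟨r, γ, hγ⟩ := hchain _ hl₁ (-l) (W.neg l hl)
    obtain ⟨j, hj⟩ := hval hγ (k := 2 * n - 1) (by omega) (by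
      rw [sub_neg_eq_add, map_add, map_sub, LinearMap.add_apply, LinearMap.sub_apply, hlx,
        hv.val, hb₁v]
      push_cast; ring)
    have h1 := hγ.top j
    have h2 := hγ.bot j
    rw [map_neg, LinearMap.neg_apply, neg_inj] at h2
    refine ⟨γ j, hj, h2, ?_⟩
    rw [map_sub, LinearMap.sub_apply, h2, P.root_coroot_eq_pairing, ← pcast] at h1
    have : ((P.pairingIn ℤ b₁ (γ j) : ℤ) : K) = 0 := by linear_combination -h1
    exact_mod_cast this
  have hb₂₁ : P.pairingIn ℤ b₂ b₁ = 0 := (pIn_zero_iff _ _).1 hb₁₂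
  -- integer values of `l`, `l - b₁`, `l - b₁ - b₂`
  have hl₁₂ : l - P.root b₁ - P.root b₂ ∈ Λ := by
    apply refl_weight W hl₁
    rw [map_sub, LinearMap.sub_apply, hb₂l, P.root_coroot_eq_pairing, ← pcast, hb₁₂]
    simp
  have hc₁ : ∀ k, c (l - P.root b₁) k = c l k - P.pairingIn ℤ b₁ k := by
    intro k
    have h1 := (hc _ hl₁ k).1
    rw [map_sub, LinearMap.sub_apply, (hc l hl k).1, P.root_coroot_eq_pairing, ← pcast] at h1
    have : ((c (l - P.root b₁) k : ℤ) : K) = ((c l k - P.pairingIn ℤ b₁ k : ℤ) : K) := by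
      rw [← h1]; push_cast; ring
    exact_mod_cast this
  have hc₁₂ : ∀ k, c (l - P.root b₁ - P.root b₂) k =
      c l k - P.pairingIn ℤ b₁ k - P.pairingIn ℤ b₂ k := by
    intro k
    have h1 := (hc _ hl₁₂ k).1
    rw [map_sub, map_sub, LinearMap.sub_apply, LinearMap.sub_apply, (hc l hl k).1,
      P.root_coroot_eq_pairing, P.root_coroot_eq_pairing, ← pcast, ← pcast] at h1
    have : ((c (l - P.root b₁ - P.root b₂) k : ℤ) : K) =
        ((c l k - P.pairingIn ℤ b₁ k - P.pairingIn ℤ b₂ k : ℤ) : K) := by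
      rw [← h1]; push_cast; ring
    exact_mod_cast this
  have hcb₁ : c l b₁ = 1 := by
    have := (hc l hl b₁).1
    rw [hb₁l] at this
    exact_mod_cast this.symm
  -- (vi)
  obtain ⟨b', a', hb'v, ha'v, hb'long, hb'b, hroot, hcoroot⟩ := long_pair W T hv hshort hb₁long hb₁v
  have hbb' : P.pairingIn ℤ b₁ b' = 0 := (pIn_zero_iff _ _).1 hb'b
  have hca' : c l a' = c l b₁ + c l b' := by
    have h1 := (hc l hl a').1
    rw [hcoroot] at h1
    have : ((c l a' : ℤ) : K) = ((c l b₁ + c l b' : ℤ) : K) := by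
      rw [← h1]
      push_cast
      rw [← (hc l hl b₁).1, ← (hc l hl b').1]
      simp
    exact_mod_cast this
  have h1 := (hc l hl a').2
  have h2 := (hc l hl b').2
  have h3 := (hc _ hl₁ a').2
  rw [hc₁] at h3
  have h4 := pIn_right hcoroot b₁
  rw [pIn_same, hbb'] at h4
  have hcb' : c l b' = 0 := by omega
  have h5 := (hc _ hl₁₂ a').2
  rw [hc₁₂] at h5
  have h6 := pIn_right hcoroot b₂
  have h7 := hv.nonneg hb₂v hb'v
  have hb₂b' : P.pairingIn ℤ b₂ b' = 0 := by omega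
  -- (vii)
  obtain ⟨g, hg, hg1, hg2⟩ := conn W T hx (b := b₁) (c := b₂) (by rw [hv.val, hb₁v]; simp) hb₁long
    (by rw [hv.val, hb₂v]; simp)
  have hgv : v g = 1 := by
    rw [hv.val] at hg
    exact_mod_cast hg
  have hg1' : 0 < P.pairingIn ℤ b₁ g := by
    have := hv.nonneg hb₁v hgv
    have h8 : P.pairingIn ℤ b₁ g ≠ 0 := by
      intro h; apply hg1; rw [← pcast, h]; simp
    omega
  have hg2' : 0 < P.pairingIn ℤ b₂ g := by
    have := hv.nonneg hb₂v hgv
    have h8 : P.pairingIn ℤ b₂ g ≠ 0 := by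
      intro h; apply hg2; rw [← pcast, h]; simp
    omega
  have h8 := (hc _ hl₁₂ g).2
  rw [hc₁₂] at h8
  have h9 := (hc l hl g).2
  have hclg : c l g = 1 := by omega
  have hb₁g : P.pairingIn ℤ b₁ g = 1 := by omega
  have hb₂g : P.pairingIn ℤ b₂ g = 1 := by omega
  have h10 := pIn_left hroot g
  have h11 := hv.nonneg hb'v hgv
  have h12 := pIn_abs W b' g
  have hb'g : P.pairingIn ℤ b' g = 1 := by omega
  have hlg : l - P.root g ∈ Λ := refl_weight W hl (by rw [(hc l hl g).1, hclg]; simp)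
  have hcg : c (l - P.root g) a' = c l a' - P.pairingIn ℤ g a' := by
    have h1 := (hc _ hlg a').1
    rw [map_sub, LinearMap.sub_apply, (hc l hl a').1, P.root_coroot_eq_pairing, ← pcast] at h1
    have : ((c (l - P.root g) a' : ℤ) : K) = ((c l a' - P.pairingIn ℤ g a' : ℤ) : K) := by
      rw [← h1]; push_cast; ring
    exact_mod_cast this
  have h13 := (hc _ hlg a').2
  have h14 := pIn_right hcoroot g
  have h15 := (pIn_pos_iff (P := P) b₁ g).1 hg1'
  have h16 := (pIn_pos_iff (P := P) b' g).1 (by omega)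
  have hgb₁ : P.pairingIn ℤ g b₁ = 1 := by omega
  have hgb' : P.pairingIn ℤ g b' = 1 := by omega
  have hgb₂ := (pIn_pos_iff (P := P) b₂ g).1 hg2'
  -- the root `g - c b₂ - b₁`
  have hk₁ := root_refl (P := P) b₂ g
  have hk₁b₁ := pIn_left hk₁ b₁
  rw [hgb₁, hb₂₁] at hk₁b₁
  have hk₁v := hv.lin hk₁
  have hk₁b' := pIn_left hk₁ b'
  have hk₂ := root_refl (P := P) b₁ (P.reflectionPerm b₂ g)
  have hk₂v := hv.lin hk₂
  have hk₂b' := pIn_left hk₂ b'
  set k₂ := P.reflectionPerm b₁ (P.reflectionPerm b₂ g) with hk₂def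
  have hk₂lo := hv.lo k₂
  have hcc : P.pairingIn ℤ g b₂ = 1 := by
    rw [hk₁b₁, hk₁v, hb₂v, hb₁v, hgv] at hk₂v
    omega
  have h17 : v (P.reflectionPerm k₂ k₂) = 1 := by
    rw [hv.ng, hk₂v, hk₁b₁, hk₁v, hb₂v, hb₁v, hgv, hcc]
    norm_num
  have h18 := hv.nonneg h17 hb'v
  rw [pIn_ng_left, hk₂b', hk₁b₁, hk₁b', hb₂b', hbb', hgb', hcc] at h18
  norm_num at h18

end Pool.Agent.Helper38.NP
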